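import Pool.Agent.H31.Spread

set_option autoImplicit false
open Matrix Finset Pool.Agent.H31.Spread IntermediateField

namespace Pool.Agent.Results.MP_e61cf5_co.Gap

variable {n : ℕ}

/-- The restricted numerical range. -/
def Wr (A : Fin n → Fin n → Prop) [DecidableRel A] : Set ℂ :=
  {w | ∃ z : Fin n → ℂ, ∑ i, z i = 0 ∧ star z ⬝ᵥ z = 1 ∧ w = star z ⬝ᵥ (lap A).map Complex.ofReal *ᵥ z}

/-- The eigenvalues of the compression of the Laplacian to the orthogonal complement of `e`. -/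
def Eig (A : Fin n → Fin n → Prop) [DecidableRel A] : Set ℂ :=
  {w | ∃ z : Fin n → ℂ, z ≠ 0 ∧ ∑ i, z i = 0 ∧ ∃ c : ℂ, ∀ i, ((lap A).map Complex.ofReal *ᵥ z) i = w * z i + c}

/-- Polygonal digraphs. -/
def Polygonal (A : Fin n → Fin n → Prop) [DecidableRel A] : Prop := Wr A = convexHull ℝ (Eig A)

theorem re_form (M : Matrix (Fin n) (Fin n) ℝ) (z : Fin n → ℂ) :
    (star z ⬝ᵥ M.map Complex.ofReal *ᵥ z).re = (fun i => (z i).re) ⬝ᵥ M *ᵥ (fun i => (z i).re) +
      (fun i => (z i).im) ⬝ᵥ M *ᵥ fun i => (z i).im := by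
  simp [dotProduct, mulVec, mul_sum, ← sum_add_distrib]

theorem nrm_form (z : Fin n → ℂ) : star z ⬝ᵥ z = (((fun i => (z i).re) ⬝ᵥ (fun i => (z i).re) +
      (fun i => (z i).im) ⬝ᵥ fun i => (z i).im : ℝ) : ℂ) := by
  simp [dotProduct, ← sum_add_distrib, Complex.ext_iff, mul_comm]

theorem dp0 (x : Fin n → ℝ) : 0 ≤ x ⬝ᵥ x := sum_nonneg fun _ _ => mul_self_nonneg _

open scoped ComplexOrder in
theorem dpos {z : Fin n → ℂ} (h : z ≠ 0) :
    0 < (fun i => (z i).re) ⬝ᵥ (fun i => (z i).re) + (fun i => (z i).im) ⬝ᵥ fun i => (z i).im := by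
  refine lt_of_le_of_ne (add_nonneg (dp0 _) (dp0 _)) fun e => h (dotProduct_star_self_eq_zero.mp ?_)
  rw [nrm_form, ← e]; simp

theorem eig_form {M : Matrix (Fin n) (Fin n) ℝ} {z : Fin n → ℂ} {w c : ℂ} (s : ∑ i, z i = 0)
    (h : ∀ i, (M.map Complex.ofReal *ᵥ z) i = w * z i + c) :
    star z ⬝ᵥ M.map Complex.ofReal *ᵥ z = w * (star z ⬝ᵥ z) := by
  have : ∑ i, star (z i) = 0 := by rw [← star_sum, s, star_zero]
  simp only [dotProduct, h, mul_add, sum_add_distrib, ← sum_mul, Pi.star_apply, this, mul_sum, mul_left_comm]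
  simp

theorem ext (A : Fin n → Fin n → Prop) [DecidableRel A] (hP : Polygonal A) (ε B : ℝ) (hB : B ∈ vals A)
    (h : ∀ x : Fin n → ℝ, ∑ i, x i = 0 → ε * (x ⬝ᵥ lap A *ᵥ x) ≤ ε * B * (x ⬝ᵥ x)) (e0 : ε ≠ 0) :
    IsIntegral ℤ (2 * B) := by
  obtain ⟨x, x1, x2, x3⟩ := hB
  have : ∃ w ∈ Eig A, ε * B ≤ ε * w.re := by
    by_contra! c
    have m : (B : ℂ) ∈ convexHull ℝ (Eig A) := hP ▸ ⟨fun i => x i, by simpa using congrArg Complex.ofReal x1, by
      simpa [dotProduct] using congrArg Complex.ofReal x2, by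
      simp [x3, dotProduct, mulVec]⟩
    exact lt_irrefl (ε * B) (convexHull_min (t := {w : ℂ | ε * w.re < ε * B}) c
      (convex_halfSpace_lt ⟨fun a b => by simp [mul_add], fun a b => by simp [mul_left_comm]⟩ _) m)
  obtain ⟨w, ⟨z, z0, z1, c, z2⟩, w1⟩ := this
  have a := congrArg Complex.re (eig_form z1 z2)
  rw [re_form, nrm_form, Complex.re_mul_ofReal] at a
  have b1 := h (fun i => (z i).re) (by simpa using congrArg Complex.re z1)
  have b2 := h (fun i => (z i).im) (by simpa using congrArg Complex.im z1)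
  have e : w.re = B := mul_left_cancel₀ e0 (le_antisymm (le_of_mul_le_mul_right
    (by rw [mul_assoc, ← a]; linarith) (dpos z0)) w1)
  have i : IsIntegral ℤ w := by
    by_cases w0 : w = 0
    · rw [w0]; exact isIntegral_zero
    let L : Matrix (Fin n) (Fin n) ℤ := diagonal (fun i => (outdeg A i : ℤ)) - of fun i j => if A i j then 1 else 0
    have eL : L.map (Int.castRingHom ℂ) = (lap A).map Complex.ofReal := by
      ext i j; simp only [L, lap, map_apply, Matrix.sub_apply, diagonal_apply, of_apply]; split_ifs <;> simp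
    refine ⟨L.charpoly, L.charpoly_monic, ?_⟩
    rw [← Polynomial.eval_map, algebraMap_int_eq, ← charpoly_map, eval_charpoly, eL, ← exists_mulVec_eq_zero_iff]
    refine ⟨fun i => z i + c / w, fun q => z0 ?_, funext fun i => ?_⟩
    · have q' : ∀ i, z i = -(c / w) := fun i => eq_neg_of_add_eq_zero_left (congrFun q i)
      funext i
      simp only [q', sum_const, card_univ, Fintype.card_fin, nsmul_eq_mul, mul_eq_zero, Nat.cast_eq_zero] at z1 ⊢
      exact z1.resolve_left i.pos.ne'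
    · have r : ∑ j, (lap A i j : ℂ) = 0 := by
        norm_cast; simp [lap, sum_sub_distrib, outdeg, diagonal_apply]
      have := z2 i
      simp only [sub_mulVec, Pi.sub_apply, scalar_apply, mulVec_diagonal, Pi.zero_apply]
      simp only [mulVec, dotProduct, map_apply, mul_add, sum_add_distrib, ← sum_mul, r] at this ⊢
      rw [this]; field_simp; ring
  refine (isIntegral_algebraMap_iff Complex.ofReal_injective).mp ?_
  have j := i.add (i.map (Complex.conjAe.toAlgHom.restrictScalars ℤ))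
  rwa [show w + (Complex.conjAe.toAlgHom.restrictScalars ℤ) w = ((2 * w.re : ℝ) : ℂ) from Complex.add_conj w, e] at j

def B {R : Type} [CommRing R] (G : Fin n → Fin n → ℤ) (y : R) : Matrix (Option (Fin n)) (Option (Fin n)) R
  | none, none => 0
  | some i, some j => (if i = j then y else 0) + G i j
  | _, _ => 1

theorem B_map {R S : Type} [CommRing R] [CommRing S] (φ : R →+* S) (G : Fin n → Fin n → ℤ) (y : R) :
    φ (B G y).det = (B G (φ y)).det := by
  rw [RingHom.map_det]; congr 1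
  ext (_ | i) (_ | j) <;> simp [B, apply_ite φ]

theorem conj (hn : 0 < n) (G : Fin n → Fin n → ℤ) (hG : ∀ i j, G i j = G j i) (μ ν ε y : ℝ) (hy : IsIntegral ℤ y)
    (h : ∀ x : Fin n → ℝ, ∑ i, x i = 0 → μ * (x ⬝ᵥ x) ≤ -(x ⬝ᵥ (of fun i j => (G i j : ℝ)) *ᵥ x) ∧
      -(x ⬝ᵥ (of fun i j => (G i j : ℝ)) *ᵥ x) ≤ ν * (x ⬝ᵥ x)) (e0 : ε ≠ 0)
    (h1 : ∀ x : Fin n → ℝ, ∑ i, x i = 0 → 0 ≤ ε * (y * (x ⬝ᵥ x) + x ⬝ᵥ (of fun i j => (G i j : ℝ)) *ᵥ x))
    (x : Fin n → ℝ) (x1 : ∑ i, x i = 0) (x2 : x ⬝ᵥ x = 1) (x3 : y + x ⬝ᵥ (of fun i j => (G i j : ℝ)) *ᵥ x = 0)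
    (a b : ℤ) (hp : ∀ w : ℝ, μ ≤ w → w ≤ ν → |w * (w - 1) * (w - a) * (w - b)| < 1) :
    y * (y - 1) * (y - a) * (y - b) = 0 := by
  obtain ⟨M, hM⟩ : ∃ M : Matrix (Fin n) (Fin n) ℝ, M = of fun i j => (G i j : ℝ) := ⟨_, rfl⟩
  rw [← hM] at h h1 x3
  have sy : ∀ u v, u ⬝ᵥ M *ᵥ v = v ⬝ᵥ M *ᵥ u := fun u v => by
    rw [dotProduct_mulVec, ← mulVec_transpose, dotProduct_comm]; congr 2; ext i j; simp [hM, hG i j]
  have nl : ∀ v : Fin n → ℝ, ∑ i, v i = 0 → y * (v ⬝ᵥ x) + v ⬝ᵥ M *ᵥ x = 0 := fun v hv => by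
    have := discrim_le_zero (a := ε * (y * (v ⬝ᵥ v) + v ⬝ᵥ M *ᵥ v)) (b := 2 * ε * (y * (v ⬝ᵥ x) + v ⬝ᵥ M *ᵥ x))
      (c := 0) fun s => by
      have := h1 (x + s • v) (by simp [sum_add_distrib, ← mul_sum, x1, hv])
      simp only [add_dotProduct, dotProduct_add, mulVec_add, mulVec_smul, smul_dotProduct, dotProduct_smul,
        smul_eq_mul, sy x v, dotProduct_comm x v, x2] at this
      linear_combination this + ε * x3
    rw [discrim, mul_zero, sub_zero] at this
    simpa [e0] using pow_eq_zero_iff two_ne_zero |>.mp (le_antisymm this (sq_nonneg _))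
  have d0 : (B G y).det = 0 := by
    refine exists_mulVec_eq_zero_iff.mp ⟨fun o => o.elim (-(y * x ⟨0, hn⟩ + (M *ᵥ x) ⟨0, hn⟩)) x,
      fun q => ?_, funext ?_⟩
    · rw [show x = 0 from funext fun i => congrFun q (some i)] at x2; simp at x2
    · rintro (_ | i)
      · simpa [mulVec, dotProduct, B] using x1
      · have := nl (Pi.single i 1 - Pi.single ⟨0, hn⟩ 1) (by simp [sum_sub_distrib])
        simp only [sub_dotProduct, single_dotProduct, one_mul] at this
        simp only [mulVec, dotProduct, B, Fintype.sum_option, Option.elim, hM, of_apply, add_mul, sum_add_distrib,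
          ite_mul, zero_mul, sum_ite_eq, mem_univ, if_true, Pi.zero_apply] at this ⊢
        linarith
  haveI : FiniteDimensional ℚ ℚ⟮y⟯ := adjoin.finiteDimensional hy.tower_top
  haveI : NumberField ℚ⟮y⟯ := {}
  let g := AdjoinSimple.gen ℚ y
  have inj := (algebraMap ℚ⟮y⟯ ℝ).injective
  have gi : IsIntegral ℤ g := (isIntegral_algebraMap_iff inj).mp hy
  by_contra c
  obtain ⟨σ, hσ⟩ := NumberField.exists_conjugate_one_le_norm (K := ℚ⟮y⟯)
    (α := ⟨g * (g - 1) * (g - a) * (g - b), ((gi.mul (gi.sub isIntegral_one)).mul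
      (gi.sub (isIntegral_algebraMap (x := a)))).mul (gi.sub (isIntegral_algebraMap (x := b)))⟩)
    fun q => c (by simpa [g] using congrArg (fun t : NumberField.RingOfIntegers ℚ⟮y⟯ => algebraMap ℚ⟮y⟯ ℝ t) q)
  have d1 : (B G (σ g)).det = 0 := by
    rw [← B_map, inj (show algebraMap _ ℝ (B G g).det = algebraMap _ ℝ 0 by rw [B_map, map_zero]; exact d0),
      map_zero]
  obtain ⟨v, v0, v1⟩ := exists_mulVec_eq_zero_iff.mpr d1
  have s : ∑ i, v (some i) = 0 := by simpa [mulVec, dotProduct, B] using congrFun v1 none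
  have k : ∀ i, (M.map Complex.ofReal *ᵥ fun i => v (some i)) i = -σ g * v (some i) + -v none := fun i => by
    have := congrFun v1 (some i)
    simp only [mulVec, dotProduct, B, Fintype.sum_option, hM, of_apply, add_mul, sum_add_distrib, map_apply,
      ite_mul, zero_mul, sum_ite_eq, mem_univ, if_true, Pi.zero_apply, Complex.ofReal_intCast] at this ⊢
    linear_combination this
  have z0 : (fun i => v (some i)) ≠ 0 := fun q => v0 (funext (by
    rintro (_ | i)
    · have := k ⟨0, hn⟩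
      rw [q, show v (some ⟨0, hn⟩) = 0 from congrFun q _] at this
      simpa using this
    · exact congrFun q i))
  have f := eig_form s k
  have p := dpos z0
  have f1 := congrArg Complex.re f
  have f2 := congrArg Complex.im f
  rw [re_form, nrm_form, Complex.re_mul_ofReal] at f1
  rw [nrm_form, Complex.im_mul_ofReal] at f2
  have f3 : (star (fun i => v (some i)) ⬝ᵥ M.map Complex.ofReal *ᵥ fun i => v (some i)).im = 0 := by
    have := sy (fun i => (v (some i)).re) fun i => (v (some i)).im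
    simp [dotProduct, mulVec, mul_sum, sum_sub_distrib, sum_add_distrib] at this ⊢
    linarith
  have b1 := h (fun i => (v (some i)).re) (by simpa using congrArg Complex.re s)
  have b2 := h (fun i => (v (some i)).im) (by simpa using congrArg Complex.im s)
  have e : σ g = ((σ g).re : ℝ) := Complex.ext (by simp) (by
    rw [f3] at f2; simpa [p.ne'] using f2)
  have := hp (σ g).re (le_of_mul_le_mul_right (by simp at f1; linarith [b1.1, b2.1]) p)
    (le_of_mul_le_mul_right (by simp at f1; linarith [b1.2, b2.2]) p)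
  refine this.not_ge (hσ.trans (le_of_eq ?_))
  simp only [NumberField.RingOfIntegers.map_mk, map_mul, map_sub, map_one, map_intCast]
  rw [e, ← Real.norm_eq_abs, ← Complex.norm_real]; simp

theorem result (hn : 2 ≤ n) (A : Fin n → Fin n → Prop) [DecidableRel A] (h0 : ∀ i, ¬A i i)
    (hP : Polygonal A) : ¬(0 < spread A ∧ spread A < 1) := by
  rintro ⟨s0, s1⟩
  let f : Fin n → Fin n → ℤ := fun i j => outdeg A i + outdeg A j + W A i j
  have f1 : ∀ i j, f i j = f j i := fun i j => by simp only [f, W]; push_cast; ring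
  have id : ∀ (t : ℤ) (x : Fin n → ℝ), ∑ i, x i = 0 → 2 * (x ⬝ᵥ lap A *ᵥ x) = t * (x ⬝ᵥ x) -
      x ⬝ᵥ (of fun i j => ((if i = j then 0 else f i j - t : ℤ) : ℝ)) *ᵥ x := fun t x hx => by
    have e : ∀ i j, ((if i = j then 0 else f i j - t : ℤ) : ℝ) = (outdeg A i - t) + outdeg A j +
        (if i = j then (t : ℝ) else 0) - lap A i j - lap A j i := fun i j => by
      by_cases c : i = j
      · simp [c, lap, h0]; ring
      · simp [c, lap, f, W, Ne.symm c]; ring
    have sy : ∑ i, ∑ j, x i * (lap A j i * x j) = ∑ i, ∑ j, x i * (lap A i j * x j) := by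
      rw [sum_comm]; exact sum_congr rfl fun i _ => sum_congr rfl fun j _ => by ring
    simp only [dotProduct, mulVec, of_apply, e, sub_mul (_ - _ : ℝ), sub_mul (_ + _ : ℝ), add_mul, sum_sub_distrib,
      sum_add_distrib, ← mul_sum, hx, ite_mul, zero_mul, sum_ite_eq, mem_univ, if_true, mul_sub, mul_add,
      ← sum_mul]
    simp only [mul_sum, sy, mul_left_comm (t : ℝ)]
    simp [two_mul, sum_add_distrib]; ring
  have cp : IsCompact (vals A) := by
    have : IsCompact {x : Fin n → ℝ | ∑ i, x i = 0 ∧ x ⬝ᵥ x = 1} :=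
      Metric.isCompact_of_isClosed_isBounded ((isClosed_eq (by fun_prop) continuous_const).inter
        (isClosed_eq (by fun_prop) continuous_const)) (Metric.isBounded_closedBall.subset fun x hx =>
        mem_closedBall_zero_iff.mpr ((pi_norm_le_iff_of_nonneg zero_le_one).mpr fun i =>
          abs_le_one_iff_mul_self_le_one.mpr (hx.2 ▸ single_le_sum (f := fun i => x i * x i)
            (fun _ _ => mul_self_nonneg _) (mem_univ i))))
    convert this.image (f := fun x => x ⬝ᵥ lap A *ᵥ x) (by fun_prop) using 1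
    ext; simp [vals, and_assoc, eq_comm]
  have ne : (vals A).Nonempty := Set.nonempty_iff_ne_empty.mpr fun e => by simp [spread, e] at s0
  have ma := cp.sInf_mem ne
  have mb := cp.sSup_mem ne
  have ia := ext A hP (-1) _ ma (fun x hx => by linarith [(hom A x hx).1]) (by norm_num)
  have ib := ext A hP 1 _ mb (fun x hx => by linarith [(hom A x hx).2]) (by norm_num)
  have H := hom A
  rw [spread] at s0 s1
  generalize sInf (vals A) = α at *
  generalize sSup (vals A) = β at *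
  have pr : ∀ i j, i ≠ j → 2 * α ≤ f i j ∧ (f i j : ℝ) ≤ 2 * β := fun i j ne => by
    have a := id 0 (Pi.single i 1 - Pi.single j 1) (by simp [sum_sub_distrib])
    have b := H (Pi.single i 1 - Pi.single j 1) (by simp [sum_sub_distrib])
    rw [← mul_le_mul_iff_right₀ two_pos, ← mul_le_mul_iff_right₀ (a := 2) (b := _ ⬝ᵥ _) two_pos, a] at b
    simp [mulVec_sub, ne, ne.symm, f1 j i] at b
    constructor <;> linarith [b.1, b.2]
  obtain ⟨xa, a1, a2, a3⟩ := ma
  obtain ⟨xb, b1, b2, b3⟩ := mb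
  have nc : ∀ t : ℤ, ∃ i j, i ≠ j ∧ f i j ≠ t := fun t => by
    by_contra! c
    have e : (of fun i j => ((if i = j then 0 else f i j - t : ℤ) : ℝ)) = 0 := by
      ext i j; by_cases d : i = j <;> simp [d, c]
    have u := id t xa a1
    have v := id t xb b1
    rw [e] at u v
    simp [← a3, ← b3, a2, b2] at u v
    linarith
  obtain ⟨t, ht⟩ : ∃ t, t = ⌈2 * α⌉ := ⟨_, rfl⟩
  have t1 : 2 * α ≤ t := ht ▸ Int.le_ceil _
  have t2 : t < 2 * α + 1 := ht ▸ Int.ceil_lt_add_one _
  have fr : ∀ i j, i ≠ j → f i j = t ∨ f i j = t + 1 := fun i j ne => by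
    have a : t ≤ f i j := ht ▸ Int.ceil_le.mpr (pr i j ne).1
    have b : ((f i j : ℤ) : ℝ) < (t + 2 : ℤ) := by push_cast; linarith [(pr i j ne).2]
    rw [Int.cast_lt] at b; omega
  have t3 : t + 1 ≤ 2 * β := by
    obtain ⟨i, j, ne, c⟩ := nc t
    have := (pr i j ne).2
    rwa [(fr i j ne).resolve_left c, Int.cast_add, Int.cast_one] at this
  have K : ∀ x : Fin n → ℝ, ∑ i, x i = 0 → (2 * α - t) * (x ⬝ᵥ x) ≤
      -(x ⬝ᵥ (of fun i j => ((if i = j then 0 else f i j - t : ℤ) : ℝ)) *ᵥ x) ∧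
      -(x ⬝ᵥ (of fun i j => ((if i = j then 0 else f i j - t : ℤ) : ℝ)) *ᵥ x) ≤ (2 * β - t) * (x ⬝ᵥ x) :=
    fun x hx => by have := id t x hx; have := H x hx; constructor <;> linarith
  obtain ⟨a, b, hp, ab⟩ : ∃ a b : ℤ, (∀ w : ℝ, 2 * α - t ≤ w → w ≤ 2 * β - t →
      |w * (w - 1) * (w - a) * (w - b)| < 1) ∧ (a = 0 ∧ b = 2 ∨ a = 1 ∧ b = -1) := by
    have q : ∀ w : ℝ, -1 / 2 ≤ w → w ≤ 2 → |w * (w - 1) * w * (w - 2)| < 1 := fun w h1 h2 => by
      rw [abs_lt]
      constructor
      · nlinarith [sq_nonneg (w ^ 2 - 3 / 2 * w - 1 / 5), sq_nonneg (w - 8 / 5)]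
      · nlinarith [mul_nonneg (mul_nonneg (sub_nonneg.mpr h1) (sub_nonneg.mpr h2)) (sq_nonneg (w - 3 / 4)),
          mul_nonneg (sub_nonneg.mpr h1) (sub_nonneg.mpr h2), sq_nonneg w]
    by_cases c : -1 / 2 ≤ 2 * α - t
    · exact ⟨0, 2, fun w h1 h2 => by simpa using q w (by linarith) (by linarith), Or.inl ⟨rfl, rfl⟩⟩
    · refine ⟨1, -1, fun w h1 h2 => ?_, Or.inr ⟨rfl, rfl⟩⟩
      convert q (1 - w) (by linarith) (by linarith) using 2; push_cast; ring
  have sG : ∀ i j, (if i = j then 0 else f i j - t : ℤ) = if j = i then 0 else f j i - t := fun i j => by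
    simp only [eq_comm (a := i), f1 i j]
  have ti : IsIntegral ℤ (t : ℝ) := isIntegral_algebraMap (x := t)
  have r1 := conj (by omega) _ sG _ _ (-1) _ (ia.sub ti) K (by norm_num) (fun x hx => by linarith [(K x hx).1])
    xa a1 a2 (by have := id t xa a1; rw [a2, ← a3] at this; linarith) a b hp
  have r2 := conj (by omega) _ sG _ _ 1 _ (ib.sub ti) K (by norm_num) (fun x hx => by linarith [(K x hx).2])
    xb b1 b2 (by have := id t xb b1; rw [b2, ← b3] at this; linarith) a b hp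
  have m : 2 * α - t = 0 ∧ 2 * β - t = 1 := by
    simp only [mul_eq_zero] at r1 r2
    rcases ab with ⟨rfl, rfl⟩ | ⟨rfl, rfl⟩ <;> push_cast at r1 r2 <;> constructor <;> grind
  rw [m.1, m.2] at K
  have tw : ∀ i j k, i ≠ j → i ≠ k → j ≠ k → f k i = f k j := fun i j k ij ik jk => by
    have T : ∀ i j k, i ≠ j → i ≠ k → j ≠ k → 0 ≤ 2 * (f i k - t) + 2 * (f j k - t) - (f i j - t) ∧
        2 * (f i k - t) + 2 * (f j k - t) - (f i j - t) ≤ 3 := fun i j k ij ik jk => by
      have := K (Pi.single i 1 + Pi.single j 1 - Pi.single k 2) (by simp [sum_sub_distrib, sum_add_distrib]; norm_num)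
      simp [mulVec_sub, mulVec_add, ij, ik, jk, ij.symm, ik.symm, jk.symm, f1 j i, f1 k i, f1 k j] at this
      rw [← Int.cast_le (R := ℝ), ← Int.cast_le (R := ℝ)]; push_cast
      constructor <;> linarith [this.1, this.2]
    have := T i j k ij ik jk
    have := T i k j ik ij jk.symm
    have := T j k i jk ij.symm ik.symm
    have := fr i j ij; have := fr i k ik; have := fr j k jk
    have := f1 i j; have := f1 i k; have := f1 j k
    omega
  obtain ⟨i, j, ne, c⟩ := nc t
  obtain ⟨k, l, ne', c'⟩ := nc (t + 1)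
  have := fr i j ne; have := fr k l ne'
  have := tw j l i; have := tw j k i; have := tw i k l; have := tw i l k; have := f1 i l; have := f1 k l
  have := f1 i k; have := f1 i j
  grind

end Pool.Agent.Results.MP_e61cf5_co.Gap
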